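import Mathlib
import Pool.Agent.Y210.EF.Spread
import Pool.Agent.Y210.EF.Expo
import Pool.Agent.TH603.Sur.Uni
import Pool.Agent.TH387.EX.Core
import Pool.Agent.TH760.EN.Asm
import Pool.Agent.TH864.SX.Final13
import Pool.Agent.TH864.SX.Eleven
import Pool.Agent.TH469.SX.TwentyOne
import Pool.Agent.TH469.SX.Fifteen
import Pool.Agent.H932R3.NearFinal
import Pool.Agent.TH641.NW.End2

set_option autoImplicit false

/-!
# The uniform SHGH conjecture with explicit open sets, explicit points, and over all fields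

Let `r ≥ 10` and `m ≥ 1`. There is a set `A` with at most one element, and empty if `r ≥ 37` or
`r = 13, 16, 21, 25, 36` (see `Open` for the restrictions on the element of `A` in the other cases),
such that the following holds, with `c = r m (m + 1) / 2`.

1. There is a polynomial `Φ ≠ 0` with INTEGRAL coefficients in the `2 r` affine coordinates of `r`
   points, of total degree at most `2 c √(2 c)` and with sum of the absolute values of the coefficients
   at most `(c!) ^ 2 * 4 ^ (c √(2 c))`, such that for EVERY field `L`, of any characteristic, and every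
   set `Y` of `r` points over `L` with `Φ(Y) ≠ 0`, the scheme `m Y` is `AH₂(d)` for every `d ∉ A`.
2. `Φ ≠ 0` over every field `L` of characteristic zero or `p > (c!) ^ 2 * 4 ^ (c √(2 c))`; among the
   configurations with coordinates in a finite subset `S` of `L` at most `2 c √(2 c) |S| ^ (2 r - 1)`
   have `Φ(Y) = 0`.
3. Explicit points with rational coordinates: `Φ(Y) ≠ 0` for `Y i = (T ^ E ^ (2 i) : T ^ E ^ (2 i + 1) : 1)`
   for all integers `E > 2 c √(2 c)` and `T > (c!) ^ 2 * 4 ^ (c √(2 c))`.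
4. `Φ(Y) ≠ 0` for the points `Y i = (exp (2 ^ (2 i / 2 r)) : exp (2 ^ ((2 i + 1) / 2 r)) : 1)` with real
   coordinates, which do not depend on `m`: at these points `m Y` is `AH₂(d)` for ALL `m` at once.
5. Over the complex numbers, for a general set `Y`, the equivalence of Q1 holds for every `d ∉ A`.
-/

namespace Pool.Agent.Results.MP_8707bd_ag.EffectiveAllFields

open MvPolynomial

section defs
variable {L : Type} [Field L]

/-- The homogeneous ideal of the point `(p 0 : p 1 : 1)`. -/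
noncomputable def pointIdeal (p : Fin 2 → L) : Ideal (MvPolynomial (Fin 3) L) :=
  Ideal.span ({X 0 - C (p 0) * X 2, X 1 - C (p 1) * X 2} : Set (MvPolynomial (Fin 3) L))

/-- The ideal `I_Y ^ (m)` of the points `(Y i 0 : Y i 1 : 1)` with multiplicity `m`. -/
noncomputable def fat {r : ℕ} (Y : Fin r → Fin 2 → L) (m : ℕ) : Ideal (MvPolynomial (Fin 3) L) :=
  ⨅ i : Fin r, pointIdeal (Y i) ^ m

/-- The forms of degree `d` in the ideal `J`. -/
noncomputable def part (J : Ideal (MvPolynomial (Fin 3) L)) (d : ℕ) :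
    Submodule L (MvPolynomial (Fin 3) L) :=
  homogeneousSubmodule (Fin 3) L d ⊓ Submodule.restrictScalars L J

/-- The Hilbert function `H_{R/J}(d) = dim R_d - dim [J]_d`. -/
noncomputable def hilb (J : Ideal (MvPolynomial (Fin 3) L)) (d : ℕ) : ℕ :=
  Module.finrank L ↥(homogeneousSubmodule (Fin 3) L d) - Module.finrank L ↥(part J d)

/-- `m Y` is `AH₂(d)`. -/
def IsAH {r : ℕ} (Y : Fin r → Fin 2 → L) (m d : ℕ) : Prop :=
  hilb (fat Y m) d = min ((d + 2).choose 2) (r * (m + 1).choose 2)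

/-- The form `F` is exceptional for `Y`: irreducible, of degree `e`, with multiplicity exactly `c i`
at `Y i`, `e ^ 2 - ∑ c i ^ 2 = -1` and `- 3 e + ∑ c i = -1`. -/
def IsExceptional {r : ℕ} (Y : Fin r → Fin 2 → L) (F : MvPolynomial (Fin 3) L) : Prop :=
  Irreducible F ∧ ∃ (e : ℕ) (c : Fin r → ℕ), F.IsHomogeneous e ∧
    (∀ i, F ∈ pointIdeal (Y i) ^ c i ∧ F ∉ pointIdeal (Y i) ^ (c i + 1)) ∧
    (e : ℤ) ^ 2 - ∑ i, (c i : ℤ) ^ 2 = -1 ∧ -3 * (e : ℤ) + ∑ i, (c i : ℤ) = -1

/-- The equivalence of Q1 for the points `Y`, the multiplicity `m` and the degree `d`: if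
`[I_Y ^ (m)]_d ≠ 0`, then `m Y` fails to be `AH₂(d)` if and only if some `F` exceptional for `Y` has a
power `F ^ s`, `s ≥ 2`, dividing all elements of `[I_Y ^ (m)]_d`. -/
def Equivalence {r : ℕ} (Y : Fin r → Fin 2 → L) (m d : ℕ) : Prop :=
  part (fat Y m) d ≠ ⊥ →
    (¬ IsAH Y m d ↔ ∃ F, IsExceptional Y F ∧ ∃ s : ℕ, 2 ≤ s ∧ ∀ G ∈ part (fat Y m) d, F ^ s ∣ G)

/-- The value at `Y` of a polynomial with integral coefficients in the coordinates of `r` points. -/
noncomputable def value {r : ℕ} (Φ : MvPolynomial (Fin r × Fin 2) ℤ) (Y : Fin r → Fin 2 → L) : L :=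
  eval (fun ij : Fin r × Fin 2 => Y ij.1 ij.2) (Φ.map (Int.castRingHom L))

end defs

/-- The sum of the absolute values of the coefficients. -/
noncomputable def height {r : ℕ} (Φ : MvPolynomial (Fin r × Fin 2) ℤ) : ℕ :=
  ∑ s ∈ Φ.support, (Φ.coeff s).natAbs

/-- The number `c = r m (m + 1) / 2` of the conditions. -/
def conds (r m : ℕ) : ℕ := r * (m + 1).choose 2

/-- The bound for the degree. -/
def degreeBound (r m : ℕ) : ℕ := 2 * conds r m * Nat.sqrt (2 * conds r m)

/-- The bound for the height. -/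
def heightBound (r m : ℕ) : ℕ :=
  (conds r m).factorial ^ 2 * 4 ^ (conds r m * Nat.sqrt (2 * conds r m))

/-- The degrees `d` which may be left open: none if `r ≥ 37`, `r = 13`, `r = 21` or `r` is a square; for
the other `r` the number `2 d + 3` is in a window around `√r (2 m + 1)`, and for `r = 11` and `r = 15`
moreover `d` is divisible by three, `√r m ≤ d` and `2 d + 3 < √r (2 m + 1)`. -/
def Open (r m d : ℕ) : Prop :=
  ¬ (37 ≤ r ∨ r = 13 ∨ r = 21 ∨ IsSquare r) ∧
  √(r : ℝ) * (2 * m + 1) - min (√(r : ℝ) - 3) (2 / 3 + 9 / (4 * √(r : ℝ))) ≤ 2 * (d : ℝ) + 3 ∧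
  2 * (d : ℝ) + 3 ≤ √(r : ℝ) * (2 * m + 1) + min (√(r : ℝ) - 3) (2 / 3 + 1 / (4 * √(r : ℝ))) ∧
  (r = 11 ∨ r = 15 → 3 ∣ d ∧ √(r : ℝ) * m ≤ d ∧ 2 * (d : ℝ) + 3 < √(r : ℝ) * (2 * m + 1))

/-- The `r` points with the affine coordinates `exp (2 ^ (k / (2 r)))`, `k = 0, 1, …, 2 r - 1`. -/
noncomputable def realPoints (r : ℕ) : Fin r → Fin 2 → ℝ := fun i j =>
  Real.exp ((2 : ℝ) ^ (((2 * (i : ℕ) + (j : ℕ) : ℕ) : ℝ) / (2 * r)))

/-- the expected dimension over `ℂ` -/
theorem generic {r m : ℕ} (hr : 10 ≤ r) (hm : 1 ≤ m) :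
    ∃ F : MvPolynomial (Fin r × Fin 2) ℚ, F ≠ 0 ∧ ∀ P : Fin r → Fin 2 → ℂ,
      MvPolynomial.aeval (fun ij : Fin r × Fin 2 => P ij.1 ij.2) F ≠ 0 →
      ∀ d : ℕ, ¬ (d = TH641.NW.dcrit r m ∧ Open r m d) → H932R3.ExpDim ℂ (fun _ => m) P d := by
  by_cases hC : 37 ≤ r ∨ r = 13 ∨ r = 21 ∨ IsSquare r
  · have h : ∃ F : MvPolynomial (Fin r × Fin 2) ℚ, F ≠ 0 ∧ ∀ P : Fin r → Fin 2 → ℂ,
        MvPolynomial.aeval (fun ij : Fin r × Fin 2 => P ij.1 ij.2) F ≠ 0 →
        ∀ d : ℕ, H932R3.ExpDim ℂ (fun _ => m) P d := by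
      rcases hC with hr | rfl | rfl | ⟨s, rfl⟩
      · exact TH760.EN.expDim37 (L := ℂ) hr hm
      · obtain ⟨F, hF, hF'⟩ := TH864.SX.uniform13 m
        exact ⟨F, hF, fun P hP d => hF' P hP d⟩
      · obtain ⟨F, hF, hF'⟩ := TH469.SX.twentyone m
        exact ⟨F, hF, fun P hP d => hF' P hP d⟩
      · have hs2 : 2 ≤ s := by
          by_contra hcon
          have : s ≤ 1 := by omega
          have := Nat.mul_le_mul this this
          omega
        exact H932R3.near_points (L := ℂ) (w := fun _ => m) hr hm (fun _ => Or.inl rfl)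
          (H932R3.near_cond (by omega) (fun _ => Or.inl rfl)
            (Or.inr ⟨s, 0, hs2, by ring, Or.inl rfl⟩))
    obtain ⟨F, hF, hF'⟩ := h
    exact ⟨F, hF, fun P hP d _ => hF' P hP d⟩
  · obtain ⟨F1, hF1, hF1'⟩ := TH641.NW.expDim_all_but_one (L := ℂ) hr hm
    obtain ⟨F2, hF2, hF2'⟩ := TH641.NW.expDim_uni_win2 (L := ℂ) hr hm
    have h3 : ∃ F : MvPolynomial (Fin r × Fin 2) ℚ, F ≠ 0 ∧ ∀ P : Fin r → Fin 2 → ℂ,
        MvPolynomial.aeval (fun ij : Fin r × Fin 2 => P ij.1 ij.2) F ≠ 0 →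
        ∀ d : ℕ, ¬ (r = 11 ∨ r = 15 → 3 ∣ d ∧ √(r : ℝ) * m ≤ d ∧
          2 * (d : ℝ) + 3 < √(r : ℝ) * (2 * m + 1)) → H932R3.ExpDim ℂ (fun _ => m) P d := by
      by_cases h11 : r = 11
      · subst h11
        obtain ⟨F, hF, hF'⟩ := TH864.SX.uniform11 m
        refine ⟨F, hF, fun P hP d hd => hF' P hP d ?_⟩
        push Not at hd
        obtain ⟨-, hd⟩ := hd
        by_cases hd3 : 3 ∣ d
        · right
          rcases lt_or_ge (d : ℝ) (√(11 : ℝ) * m) with h | h
          · exact Or.inl h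
          · exact Or.inr (by have := hd hd3 (by push_cast; exact h); push_cast at this; exact this)
        · exact Or.inl hd3
      · by_cases h15 : r = 15
        · subst h15
          obtain ⟨F, hF, hF'⟩ := TH469.SX.fifteen m
          refine ⟨F, hF, fun P hP d hd => hF' P hP d ?_⟩
          push Not at hd
          obtain ⟨-, hd⟩ := hd
          by_cases hd3 : 3 ∣ d
          · right
            rcases lt_or_ge (d : ℝ) (√(15 : ℝ) * m) with h | h
            · exact Or.inl h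
            · exact Or.inr (by have := hd hd3 (by push_cast; exact h); push_cast at this; exact this)
          · exact Or.inl hd3
        · refine ⟨1, one_ne_zero, fun P _ d hd => ?_⟩
          exact absurd (fun h => by rcases h with h | h <;> contradiction) hd
    obtain ⟨F3, hF3, hF3'⟩ := h3
    refine ⟨F1 * F2 * F3, mul_ne_zero (mul_ne_zero hF1 hF2) hF3, fun P hP d hd => ?_⟩
    rw [map_mul, map_mul] at hP
    have hP12 := left_ne_zero_of_mul hP
    by_cases hd0 : d = TH641.NW.dcrit r m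
    · have hO : ¬ Open r m d := fun h => hd ⟨hd0, h⟩
      unfold Open at hO
      by_cases hw : √(r : ℝ) * (2 * m + 1) - min (√(r : ℝ) - 3) (2 / 3 + 9 / (4 * √(r : ℝ))) ≤
          2 * (d : ℝ) + 3
      · by_cases hw2 : 2 * (d : ℝ) + 3 ≤ √(r : ℝ) * (2 * m + 1) +
            min (√(r : ℝ) - 3) (2 / 3 + 1 / (4 * √(r : ℝ)))
        · refine hF3' P (right_ne_zero_of_mul hP) d fun h => ?_
          exact hO ⟨hC, hw, hw2, h⟩
        · refine hF2' P (right_ne_zero_of_mul hP12) d (Or.inr ?_)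
          push Not at hw2
          linarith
      · refine hF2' P (right_ne_zero_of_mul hP12) d (Or.inl ?_)
        push Not at hw
        linarith
    · exact hF1' P (left_ne_zero_of_mul hP12) d hd0

theorem isAH_of {L : Type} [Field L] {r m d : ℕ} {Y : Fin r → Fin 2 → L}
    (h : Y210.EF.ED L (fun _ => m) Y d) : IsAH Y m d := by
  unfold Y210.EF.ED at h
  rw [Finset.sum_const, Finset.card_univ, Fintype.card_fin, smul_eq_mul] at h
  have h3 : Module.finrank L ↥(part (fat Y m) d) = (d + 2).choose 2 - r * (m + 1).choose 2 := h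
  have h4 : Module.finrank L ↥(homogeneousSubmodule (Fin 3) L d) = (d + 2).choose 2 :=
    TH603.Sur.finrank_forms d
  unfold IsAH hilb
  rw [h3, h4]
  omega

theorem value_eq {L : Type} [Field L] {r : ℕ} (Φ : MvPolynomial (Fin r × Fin 2) ℤ)
    (Y : Fin r → Fin 2 → L) : value Φ Y = Y210.EF.ev Y Φ := by
  unfold value Y210.EF.ev
  rw [eval_map, coe_eval₂Hom]

/-- **Main result.** -/
theorem result (r m : ℕ) (hr : 10 ≤ r) (hm : 1 ≤ m) :
    ∃ A : Set ℕ, A.Subsingleton ∧ (∀ d ∈ A, Open r m d) ∧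
      (∃ Φ : MvPolynomial (Fin r × Fin 2) ℤ, Φ ≠ 0 ∧ Φ.totalDegree ≤ degreeBound r m ∧
        height Φ ≤ heightBound r m ∧
        -- every field
        (∀ (L : Type) [Field L] (Y : Fin r → Fin 2 → L), value Φ Y ≠ 0 →
          ∀ d : ℕ, d ∉ A → IsAH Y m d) ∧
        -- characteristic zero or large
        (∀ (L : Type) [Field L], (CharZero L ∨ ∃ p : ℕ, CharP L p ∧ heightBound r m < p) →
          Φ.map (Int.castRingHom L) ≠ 0 ∧
          ∀ S : Finset L, Set.ncard {Y : Fin r × Fin 2 → L | (∀ ij, Y ij ∈ S) ∧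
            value Φ (fun i j => Y (i, j)) = 0} * S.card ≤ degreeBound r m * S.card ^ (2 * r)) ∧
        -- explicit points
        (∀ E T : ℕ, degreeBound r m < E → heightBound r m < T → ∀ (L : Type) [Field L] [CharZero L],
          value Φ (fun (i : Fin r) (j : Fin 2) => (T : L) ^ E ^ (2 * (i : ℕ) + (j : ℕ))) ≠ 0) ∧
        value Φ (realPoints r) ≠ 0) ∧
      -- the equivalence of Q1
      (∃ Ψ : MvPolynomial (Fin r × Fin 2) ℂ, Ψ ≠ 0 ∧ ∀ Y : Fin r → Fin 2 → ℂ,
        eval (fun ij : Fin r × Fin 2 => Y ij.1 ij.2) Ψ ≠ 0 →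
          ∀ d : ℕ, d ∉ A → IsAH Y m d ∧ Equivalence Y m d) := by
  classical
  obtain ⟨A, hA⟩ : ∃ A : Set ℕ, A = {d | d = TH641.NW.dcrit r m ∧ Open r m d} := ⟨_, rfl⟩
  have hsub : A.Subsingleton := by
    intro x hx y hy
    rw [hA] at hx hy
    exact hx.1.trans hy.1.symm
  obtain ⟨F, hF, hF'⟩ := generic hr hm
  have hF'' : ∀ P : Fin r → Fin 2 → ℂ,
      MvPolynomial.aeval (fun ij : Fin r × Fin 2 => P ij.1 ij.2) F ≠ 0 →
      ∀ d : ℕ, d ∉ A → H932R3.ExpDim ℂ (fun _ => m) P d := by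
    intro P hP d hd
    refine hF' P hP d fun h => hd ?_
    rw [hA]
    exact h
  obtain ⟨P, hP⟩ : ∃ P : Fin r → Fin 2 → ℂ,
      MvPolynomial.aeval (fun ij : Fin r × Fin 2 => P ij.1 ij.2) F ≠ 0 := by
    by_contra hcon
    push Not at hcon
    apply H932R3.map_ne_zero_of (L := ℂ) hF
    apply MvPolynomial.funext
    intro x
    rw [map_zero, eval_map]
    exact hcon fun i j => x (i, j)
  have hcnd : Y210.EF.cnd (fun _ : Fin r => m) = conds r m := by
    unfold Y210.EF.cnd conds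
    rw [Finset.sum_const, Finset.card_univ, Fintype.card_fin, smul_eq_mul]
  have hc3 : 3 ≤ Y210.EF.cnd (fun _ : Fin r => m) := by
    rw [hcnd]
    unfold conds
    have h1 : 1 ≤ (m + 1).choose 2 := Nat.choose_pos (by omega)
    calc 3 ≤ 10 * 1 := by norm_num
      _ ≤ r * (m + 1).choose 2 := Nat.mul_le_mul hr h1
  obtain ⟨Φ, h1, h2, h3, h4⟩ := Y210.EF.spread_all (w := fun _ : Fin r => m) hc3 A
    (by
      rcases hsub.eq_empty_or_singleton with h | ⟨x, h⟩
      · exact Or.inl h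
      · exact Or.inr ⟨x, h⟩) (fun d hd => hF'' P hP d hd)
  rw [hcnd] at h2 h3
  refine ⟨A, hsub, fun d hd => by rw [hA] at hd; exact hd.2, ⟨Φ, h1, h2, h3, ?_, ?_, ?_, ?_⟩, ?_⟩
  · intro L _ Y hY d hd
    rw [value_eq] at hY
    exact isAH_of (h4 L Y hY d hd)
  · intro L _ hL
    have h5 := Y210.EF.map_ne_zero_of_lt h1 h3 hL
    refine ⟨h5, fun S => ?_⟩
    have h6 := Y210.EF.count_zeros h5 ((Finset.sup_mono (support_map_subset _ _)).trans h2) S
    refine le_trans (le_of_eq ?_) h6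
    congr 1
    rw [← Set.ncard_coe_finset]
    congr 1
    ext Y
    simp only [Set.mem_ofPred_eq, Finset.coe_filter, Fintype.mem_piFinset, value]
  · intro E T hE hT L _ _
    have h5 := Y210.EF.kron_points h1 (h2.trans_lt hE) (h3.trans_lt hT)
    intro h0
    apply h5
    have h6 : value Φ (fun (i : Fin r) (j : Fin 2) => (T : L) ^ E ^ (2 * (i : ℕ) + (j : ℕ))) =
        ((eval (fun ij : Fin r × Fin 2 => (T : ℤ) ^ (E ^ (Y210.EF.idx ij))) Φ : ℤ) : L) := by
      unfold value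
      rw [eval_map]
      have h7 := MvPolynomial.eval₂_comp_left (Int.castRingHom L) (RingHom.id ℤ)
        (fun ij : Fin r × Fin 2 => (T : ℤ) ^ (E ^ (Y210.EF.idx ij))) Φ
      rw [RingHom.comp_id] at h7
      show _ = (Int.castRingHom L) (eval₂ (RingHom.id ℤ) _ Φ)
      rw [h7]
      congr 1
      funext ij
      simp [Y210.EF.idx]
    rw [h6] at h0
    exact_mod_cast h0
  · intro h0
    apply Y210.EF.exp_points (by omega : 1 ≤ r) h1
    have h6 := congrArg (fun x : ℝ => (x : ℂ)) h0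
    simp only [Complex.ofReal_zero] at h6
    rw [← h6]
    unfold value realPoints
    rw [eval_map]
    have h7 := MvPolynomial.eval₂_comp_left Complex.ofRealHom (Int.castRingHom ℝ)
      (fun ij : Fin r × Fin 2 => Real.exp ((2 : ℝ) ^ (((2 * (ij.1 : ℕ) + (ij.2 : ℕ) : ℕ) : ℝ) /
        (2 * r)))) Φ
    show _ = Complex.ofRealHom _
    rw [h7]
    have h8 : Complex.ofRealHom.comp (Int.castRingHom ℝ) = Int.castRingHom ℂ :=
      RingHom.ext_int _ _
    rw [h8]
    congr 1
    funext ij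
    show _ = ((Real.exp _ : ℝ) : ℂ)
    rw [Complex.ofReal_exp]
    rfl
  · obtain ⟨Ψ, hΨ, hΨ'⟩ := TH387.EX.core hr (m := m) (S := {d | d ∉ A}) ⟨F, hF, fun Q hQ d hd => hF'' Q hQ d hd⟩
    refine ⟨Ψ, hΨ, fun Y hY d hd => ?_⟩
    obtain ⟨h5, -, -⟩ := hΨ' Y hY
    exact ⟨(h5 d hd).1, (h5 d hd).2⟩

end Pool.Agent.Results.MP_8707bd_ag.EffectiveAllFields
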